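import Pool.Agent.H.MP_3eaa21_lc.A
import Pool.Agent.Lib.helper21.Bushy

set_option autoImplicit false

/-! A generic set in a countable class that is effectively closed relative to the halting problem. -/

namespace Pool.Agent.H.MP_81a968_lc

open Pool.Agent.Lib.helper21.PR Pool.Agent.H.MP_fa5791_lc Pool.Agent.H.MP_fa2eca_lc Filter Encodable Denumerable
open Nat.Partrec Nat.Partrec.Code Pool.Agent.Lib.helper21 Pool.Agent.Lib.helper21.ML Pool.Agent.H.MP_3eaa21_lc

attribute [local irreducible] Primrec Computable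

variable {α : Type} [Primcodable α]

abbrev S := List Bool

def H (e n : ℕ) (σ : S) : Prop := ((ofNat Code e).eval (encode (n, σ))).Dom

theorem H_re : RE fun z : ℕ × ℕ × S => H z.1 z.2.1 z.2.2 :=
  r_comp (f := fun z : ℕ × ℕ × S => (z.1, encode z.2)) re_dom (by fun_prop)

def Ok (e n : ℕ) (σ : S) : Prop := ∃ τ, σ <+: τ ∧ H e n τ

theorem exF : ∃ f : ℕ × ℕ × S →. S, Partrec f ∧ (∀ a b, b ∈ f a → a.2.2 <+: b ∧ H a.1 a.2.1 b) ∧
    ∀ a b, (a.2.2 <+: b ∧ H a.1 a.2.1 b) → ∃ b', b' ∈ f a := by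
  have := H_re
  exact (MP_c57dc8_lc.sig_re (RE.re (p := fun z : (ℕ × ℕ × S) × S => z.1.2.2 <+: z.2 ∧ H z.1.1 z.1.2.1 z.2)
    (by fun_prop))).unif

noncomputable def pf : ℕ × ℕ × S →. S := exF.choose

open Classical in
noncomputable def F (e n : ℕ) (σ : S) : S := if h : (pf (e, n, σ)).Dom then (pf (e, n, σ)).get h else σ

theorem F_mem {e n : ℕ} {σ : S} (h : Ok e n σ) : F e n σ ∈ pf (e, n, σ) := by
  obtain ⟨τ, h⟩ := h
  obtain ⟨b, hb⟩ := exF.choose_spec.2.2 (e, n, σ) τ h
  have : (pf (e, n, σ)).Dom := Part.dom_iff_mem.2 ⟨b, hb⟩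
  rw [F, dif_pos this]
  exact Part.get_mem _

theorem F_H {e n : ℕ} {σ : S} (h : Ok e n σ) : H e n (F e n σ) := (exF.choose_spec.2.1 _ _ (F_mem h)).2

theorem F_no {e n : ℕ} {σ : S} (h : ¬ Ok e n σ) : F e n σ = σ := by
  rw [F, dif_neg]
  exact fun k => h ⟨_, exF.choose_spec.2.1 _ _ (Part.get_mem k)⟩

theorem F_pre (e n : ℕ) (σ : S) : σ <+: F e n σ := by
  by_cases h : Ok e n σ
  · exact (exF.choose_spec.2.1 _ _ (F_mem h)).1
  · rw [F_no h]

noncomputable def ok (e n : ℕ) (σ : S) : Bool := cd (Ok e n σ)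

theorem ok_iff {e n : ℕ} {σ : S} : ok e n σ = true ↔ Ok e n σ := cd_true

@[fun_prop] theorem ok_ci {e n : α → ℕ} {σ : α → S} (he : CI (J O) e) (hn : CI (J O) n) (hσ : CI (J O) σ) :
    CI (J O) fun a => ok (e a) (n a) (σ a) := by
  have := H_re
  have h : RE fun z : ℕ × ℕ × S => Ok z.1 z.2.1 z.2.2 := RE.un (RE.re (by unfold Ok; fun_prop))
  exact ci_comp (g := fun a => (e a, n a, σ a)) h.jump (by fun_prop)

@[fun_prop] theorem F_ci {e n : α → ℕ} {σ : α → S} (he : CI (J O) e) (hn : CI (J O) n) (hσ : CI (J O) σ) :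
    CI (J O) fun a => F (e a) (n a) (σ a) := by
  have h1 : RI (J O) fun z : (ℕ × ℕ × S) × S => z.2 ∈ pf z.1 := (i_re (r_graph exF.choose_spec.1)).un
  have h : CI (J O) fun z : ℕ × ℕ × S => F z.1 z.2.1 z.2.2 :=
    CI.mk (R := fun a b => b ∈ pf a ∨ ok a.1 a.2.1 a.2.2 = false ∧ b = a.2.2)
      (i_or (i_pw h1) (by fun_prop)) fun a b => by
        by_cases c : Ok a.1 a.2.1 a.2.2
        · simp only [ok_iff.2 c, Bool.true_eq_false, false_and, or_false]
          exact ⟨fun k => Part.mem_unique (F_mem c) k, fun k => k ▸ F_mem c⟩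
        · rw [F_no c]
          exact ⟨fun k => k.elim (fun k => (c ⟨_, exF.choose_spec.2.1 _ _ k⟩).elim) fun k => k.2.symm,
            fun k => .inr ⟨Bool.eq_false_iff.2 (mt ok_iff.1 c), k.symm⟩⟩
  exact ci_comp (g := fun a => (e a, n a, σ a)) h (by fun_prop)

noncomputable def X (e : ℕ) (σ : S) (n : ℕ) : S :=
  Nat.rec (motive := fun _ => S) σ (fun n x => F e n x ++ [false]) n

theorem X_succ (e : ℕ) (σ : S) (n : ℕ) : X e σ (n + 1) = F e n (X e σ n) ++ [false] := rfl

@[fun_prop] theorem X_ci {e n : α → ℕ} {σ : α → S} (he : CI (J O) e) (hn : CI (J O) n) (hσ : CI (J O) σ) :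
    CI (J O) fun a => X (e a) (σ a) (n a) := by
  unfold X
  fun_prop

theorem chain {c : ℕ → S} (h : ∀ n, c n <+: c (n + 1)) {m n : ℕ} (k : m ≤ n) : c m <+: c n := by
  induction k with
  | refl => exact List.prefix_rfl
  | step _ ih => exact ih.trans (h _)

theorem X_mono (e : ℕ) (σ : S) {m n : ℕ} (k : m ≤ n) : X e σ m <+: X e σ n :=
  chain (fun _ => (F_pre _ _ _).trans (List.prefix_append _ _)) k

theorem X_len (e : ℕ) (σ : S) : ∀ n, σ.length + n ≤ (X e σ n).length
  | 0 => le_rfl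
  | n + 1 => by
    have := X_len e σ n
    have := (F_pre e n (X e σ n)).length_le
    rw [X_succ, List.length_append, List.length_singleton]
    omega

/-- limit of a chain -/
def lim (c : ℕ → S) (i : ℕ) : Bool := (c (i + 1)).getD i false

theorem lim_pre {c : ℕ → S} (h : ∀ n, c n <+: c (n + 1)) (hl : ∀ n, n ≤ (c n).length) (n : ℕ) :
    pre (lim c) (c n).length = c n := by
  refine List.ext_getElem (pre_len _ _) fun i _ hi => ?_
  have h1 : i < (c (i + 1)).length := hl (i + 1)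
  simp only [pre, List.getElem_map, List.getElem_range, lim, List.getD_eq_getElem _ _ h1]
  rcases le_total n (i + 1) with k | k
  · exact ((chain h k).getElem hi).symm
  · exact (chain h k).getElem h1

theorem pre_of_le {Z : ℕ → Bool} {σ : S} (h : pre Z σ.length = σ) {n : ℕ} (k : n ≤ σ.length) : pre Z n <+: σ :=
  h ▸ pre_pre Z k

theorem X_comp {e : ℕ} {σ : S} (h : ∀ n, Ok e n (X e σ n)) : Computable (lim (X e σ)) := by
  have h1 : Partrec fun n : ℕ => Nat.rec (motive := fun _ => Part S) (Part.some σ)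
      (fun y IH => IH.bind fun x => (pf (e, y, x)).map (· ++ [false])) n :=
    Partrec.nat_rec (f := fun n => n) (g := fun _ => Part.some σ)
      (h := fun _ p => (pf (e, p.1, p.2)).map (· ++ [false])) Computable.id (Computable.const σ).partrec
      ((exF.choose_spec.1.comp (g := fun z : ℕ × ℕ × S => (e, z.2.1, z.2.2)) (by fun_prop)).map
        (Primrec.to_comp (f := fun z : (ℕ × ℕ × S) × S => z.2 ++ [false]) (by fun_prop)))
  have h2 : Computable (X e σ) := h1.of_eq_tot fun n => by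
    induction n with
    | zero => exact Part.mem_some _
    | succ n ih => exact Part.mem_bind_iff.2 ⟨_, ih, Part.mem_map _ (F_mem (h n))⟩
  have h3 : Computable fun z : S × ℕ => z.1.getD z.2 false := Primrec.to_comp (by fun_prop)
  exact h3.comp ((h2.comp Computable.succ).pair Computable.id)

def Bad (p : ℕ → Prop) (e : ℕ) (σ : S) : Set ℕ := {n | p n ∧ ¬ Ok e n (X e σ n)}

open Classical in
noncomputable def St (p : ℕ → Prop) (e : ℕ) (σ : S) : S :=
  if (Bad p e σ).Nonempty then X e σ (sInf (Bad p e σ) + 1) else F e 0 σ ++ [true]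

theorem inf_eq {s : Set ℕ} {k : ℕ} (h : k ∈ s) (h' : ∀ m < k, m ∉ s) : sInf s = k :=
  le_antisymm (Nat.sInf_le h) (le_of_not_gt fun c => h' _ c (Nat.sInf_mem ⟨k, h⟩))

theorem St_pre (p : ℕ → Prop) (e : ℕ) (σ : S) : F e 0 σ <+: St p e σ ∧ σ.length < (St p e σ).length := by
  unfold St
  split_ifs with h
  · exact ⟨(List.prefix_append _ _).trans (X_mono e σ (m := 1) (by omega)),
      by have := X_len e σ (sInf (Bad p e σ) + 1); omega⟩
  · exact ⟨List.prefix_append _ _, by have := (F_pre e 0 σ).length_le; simp; omega⟩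

@[fun_prop] theorem St_ci {e n : α → ℕ} {σ : α → S} (he : CI (J O) e) (hn : CI (J O) n) (hσ : CI (J O) σ) :
    CI (J O) fun a => St (· < n a) (e a) (σ a) := by
  refine CI.mk (R := fun a b => (∃ k, k < n a ∧ ok (e a) k (X (e a) (σ a) k) = false ∧
    (∀ m < k, ok (e a) m (X (e a) (σ a) m) = true) ∧ b = X (e a) (σ a) (k + 1)) ∨
      (∀ m < n a, ok (e a) m (X (e a) (σ a) m) = true) ∧ b = F (e a) 0 (σ a) ++ [true]) (by fun_prop) fun a b => ?_
  simp only [← Bool.not_eq_true, ok_iff]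
  unfold St
  split_ifs with h
  · refine ⟨fun k => ?_, fun k => .inl ⟨_, (Nat.sInf_mem h).1, (Nat.sInf_mem h).2, fun m hm => ?_, k.symm⟩⟩
    · rcases k with ⟨k, k1, k2, k3, rfl⟩ | k
      · rw [inf_eq (s := Bad (· < n a) (e a) (σ a)) (k := k) ⟨k1, k2⟩ fun m hm c => c.2 (k3 m hm)]
      · exact (h.elim fun m c => c.2 (k.1 m c.1)).elim
    · by_contra c
      exact Nat.notMem_of_lt_sInf hm ⟨hm.trans (Nat.sInf_mem h).1, c⟩
  · refine ⟨fun k => ?_, fun k => .inr ⟨fun m hm => by_contra fun c => h ⟨m, hm, c⟩, k.symm⟩⟩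
    rcases k with ⟨k, k1, k2, -⟩ | k
    · exact (h ⟨k, k1, k2⟩).elim
    · exact k.2.symm

noncomputable def B (p : ℕ → Prop) (e : ℕ) : S := Nat.rec (motive := fun _ => S) [] (St p) e

theorem B_step (p : ℕ → Prop) (e : ℕ) : B p e <+: B p (e + 1) := (F_pre _ _ _).trans (St_pre p e _).1

theorem B_len (p : ℕ → Prop) : ∀ e, e ≤ (B p e).length
  | 0 => le_rfl
  | e + 1 => (B_len p e).trans_lt (St_pre p e _).2

@[fun_prop] theorem B_ci {e n : α → ℕ} (he : CI (J O) e) (hn : CI (J O) n) :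
    CI (J O) fun a => B (· < n a) (e a) := by
  unfold B
  exact ci_rec (h := fun a => St (· < n a)) he (by fun_prop) (by fun_prop)

noncomputable def G : ℕ → Bool := lim (B fun _ => True)

theorem G_pre (e : ℕ) : pre G (B (fun _ => True) e).length = B (fun _ => True) e := lim_pre (B_step _) (B_len _) e

/-- the tree -/
def T (ρ : S) : Prop := ∃ e < ρ.length + 1, ρ <+: X e (B (· < ρ.length) e) ρ.length

theorem T_ci : CI (J O) fun ρ => cd (T ρ) := by
  have : CI (J O) fun z : S × S => cd (z.1 <+: z.2) := ci_prim (by fun_prop)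
  unfold T
  exact ci_exists_lt (ci_comp (g := fun z : S × ℕ => (z.1, X z.2 (B (· < z.1.length) z.2) z.1.length)) this
    (by fun_prop)) (by fun_prop)

theorem St_cases (s e : ℕ) (σ : S) : St (· < s) e σ = St (fun _ => True) e σ ∨ X e σ s <+: St (fun _ => True) e σ := by
  unfold St
  by_cases h : (Bad (fun _ => True) e σ).Nonempty
  · rw [if_pos h]
    by_cases k : sInf (Bad (fun _ => True) e σ) < s
    · have h' : _ ∈ Bad (· < s) e σ := ⟨k, (Nat.sInf_mem h).2⟩
      rw [if_pos ⟨_, h'⟩, inf_eq h' fun m hm c => Nat.notMem_of_lt_sInf hm ⟨trivial, c.2⟩]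
      exact .inl rfl
    · exact .inr (X_mono e σ (by omega))
  · rw [if_neg h, if_neg fun ⟨n, k⟩ => h ⟨n, trivial, k.2⟩]
    exact .inl rfl

theorem St_ev (e : ℕ) (σ : S) : ∀ᶠ s in atTop, St (· < s) e σ = St (fun _ => True) e σ :=
  (eventually_gt_atTop (St (fun _ => True) e σ).length).mono fun s hs => (St_cases s e σ).resolve_right fun k => by
    have := k.length_le
    have := X_len e σ s
    omega

theorem B_ev : ∀ e, ∀ᶠ s in atTop, B (· < s) e = B (fun _ => True) e
  | 0 => .of_forall fun _ => rfl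
  | e + 1 => ((B_ev e).and (St_ev e (B (fun _ => True) e))).mono fun s h => by
    change St _ e (B _ e) = St _ e (B _ e)
    rw [h.1, h.2]

theorem T_G (s : ℕ) : T (pre G s) := by
  unfold T
  rw [pre_len]
  have key : ∀ e ≤ s, B (· < s) e = B (fun _ => True) e ∨ ∃ e < s + 1, pre G s <+: X e (B (· < s) e) s := by
    intro e
    induction e with
    | zero => exact fun _ => .inl rfl
    | succ e ih =>
      intro he
      rcases ih (by omega) with h | h
      · rcases St_cases s e (B (fun _ => True) e) with k | k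
        · left
          change St _ e (B _ e) = St _ e (B _ e)
          rw [h, k]
        · refine .inr ⟨e, by omega, ?_⟩
          rw [h]
          have h1 := X_len e (B (fun _ => True) e) s
          exact List.prefix_of_prefix_length_le (pre_of_le (G_pre (e + 1)) ((by omega : s ≤ _).trans k.length_le)) k
            (by rw [pre_len]; omega)
      · exact .inr h
  rcases key s le_rfl with h | h
  · exact ⟨s, by omega, by rw [h]; exact (pre_of_le (G_pre s) (B_len _ s)).trans (X_mono _ _ (Nat.zero_le _))⟩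
  · exact h

theorem pre_eq {Z Z' : ℕ → Bool} {σ : S} {s i : ℕ} (h : pre Z s <+: σ) (h' : pre Z' σ.length = σ) (hi : i < s) :
    Z i = Z' i := by
  have h1 : i < (pre Z s).length := by rwa [pre_len]
  have h2 := h.getElem h1
  have h3 : i < σ.length := h1.trans_le h.length_le
  have h4 : (pre Z' σ.length)[i]'(by rwa [pre_len]) = σ[i] := by simp only [h']
  simp only [pre, List.getElem_map, List.getElem_range] at h2 h4
  rw [h2, h4]

noncomputable def Zs : ℕ → ℕ → Bool
  | 0 => G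
  | e + 1 => lim (X e (B (fun _ => True) e))

theorem T_count {Z : ℕ → Bool} (h : ∀ s, T (pre Z s)) : ∃ i, Z = Zs i := by
  by_contra c
  push Not at c
  choose k hk using fun i => Function.ne_iff.1 (c i)
  have h1 : ∀ᶠ s in atTop, ∀ e ∈ Set.Iic (k 0 + 1), B (· < s) e = B (fun _ => True) e ∧ k (e + 1) < s :=
    (eventually_all_finite (Set.finite_Iic _)).2 fun e _ => (B_ev e).and (eventually_gt_atTop _)
  obtain ⟨s, h2, h3⟩ := (h1.and (eventually_gt_atTop (k 0))).exists
  obtain ⟨e, -, h4⟩ := h s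
  rw [pre_len] at h4
  by_cases he : e ≤ k 0 + 1
  · rw [(h2 e he).1] at h4
    exact hk (e + 1) (pre_eq h4 (lim_pre (fun n => X_mono _ _ n.le_succ)
      (fun n => (Nat.le_add_left _ _).trans (X_len _ _ n)) s) (h2 e he).2)
  · have h5 : B (fun _ => True) (k 0 + 1) <+: X e (B (· < s) e) s := by
      rw [← (h2 _ (Set.mem_Iic.2 le_rfl)).1]
      exact (chain (B_step _) (by omega)).trans (X_mono _ _ (Nat.zero_le _))
    have h6 : pre Z (k 0 + 1) <+: B (fun _ => True) (k 0 + 1) :=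
      List.prefix_of_prefix_length_le ((pre_pre Z h3).trans h4) h5 (by rw [pre_len]; exact B_len _ _)
    exact hk 0 (pre_eq h6 (G_pre _) (by omega))

theorem idx {U : ℕ × S → Prop} (h : RE U) : ∃ e, ∀ n σ, H e n σ ↔ U (n, σ) := by
  obtain ⟨c, hc⟩ := re_code (r_pw h).re
  exact ⟨encode c, fun n σ => by rw [H, ofNat_encode, hc]⟩

theorem G_gen {W : S → Prop} (h : RE W) : ∃ n, W (pre G n) ∨ ∀ τ, pre G n <+: τ → ¬ W τ := by
  obtain ⟨e, he⟩ := idx (U := fun z => W z.2) (by fun_prop)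
  by_cases c : Ok e 0 (B (fun _ => True) e)
  · have h1 : F e 0 (B (fun _ => True) e) <+: pre G (B (fun _ => True) (e + 1)).length := by
      rw [G_pre]
      exact (St_pre _ _ _).1
    exact ⟨_, .inl ((of_pre h1).symm ▸ (he _ _).1 (F_H c))⟩
  · exact ⟨_, .inr fun τ h1 h2 => c ⟨τ, G_pre e ▸ h1, (he _ _).2 h2⟩⟩

theorem G_low {U : ℕ × S → Prop} (h : RE U) (hm : ∀ n σ τ, σ <+: τ → U (n, σ) → U (n, τ))
    (hG : ∀ n, ∃ m, U (n, pre G m)) : ∃ Z : ℕ → Bool, Computable Z ∧ ∀ n, ∃ m, U (n, pre Z m) := by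
  obtain ⟨e, he⟩ := idx h
  by_cases c : (Bad (fun _ => True) e (B (fun _ => True) e)).Nonempty
  · have h1 : B (fun _ => True) (e + 1) = _ := if_pos c
    obtain ⟨m, h2⟩ := hG (sInf (Bad (fun _ => True) e (B (fun _ => True) e)))
    refine ((Nat.sInf_mem c).2 ⟨pre G (m + (B (fun _ => True) (e + 1)).length), ?_,
      (he _ _).2 (hm _ _ _ (pre_pre _ (by omega)) h2)⟩).elim
    refine (X_mono _ _ (Nat.le_succ _)).trans (h1 ▸ ?_)
    exact (G_pre (e + 1)).symm ▸ pre_pre _ (by rw [G_pre]; omega)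
  · have h1 : ∀ n, Ok e n (X e (B (fun _ => True) e) n) := fun n => by_contra fun k => c ⟨n, trivial, k⟩
    refine ⟨_, X_comp h1, fun n => ⟨(X e (B (fun _ => True) e) (n + 1)).length, ?_⟩⟩
    rw [lim_pre (fun n => X_mono _ _ n.le_succ) (fun n => (Nat.le_add_left _ _).trans (X_len _ _ n))]
    exact hm _ _ _ (List.prefix_append _ _) ((he _ _).1 (F_H (h1 n)))

end Pool.Agent.H.MP_81a968_lc
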